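import Pool.Agent.T9h45.SW.Mt
import Pool.Agent.R129.Tia.Ind2

/-!
# Independent edges of a matching in a graph of girth at least twelve
-/

set_option autoImplicit false
set_option linter.unusedSectionVars false

namespace Pool.T9h45.SW

open Finset Pool.Agent.Y335.FL Pool.Agent.R129.Tia

section ind

variable {V : Type} [DecidableEq V]

/-- independent sets of a relation without circuits of length three, four and five -/
theorem ind (K : V → V → Prop) (hs : ∀ a b, K a b → K b a) (hi : ∀ a, ¬ K a a) (A : Finset V)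
    (h3 : ∀ a ∈ A, ∀ b ∈ A, ∀ c ∈ A, K a b → K b c → K c a → False)
    (h4 : ∀ a ∈ A, ∀ b ∈ A, ∀ c ∈ A, ∀ d ∈ A, a ≠ c → b ≠ d → K a b → K b c → K c d → K d a →
      False)
    (h5 : ∀ a ∈ A, ∀ b ∈ A, ∀ c ∈ A, ∀ d ∈ A, ∀ e ∈ A, a ≠ c → a ≠ d → b ≠ d → b ≠ e → c ≠ e →
      K a b → K b c → K c d → K d e → K e a → False)
    (j : ℕ) (hj : 1 ≤ j) : j ≤ 6 → ∀ B ⊆ A, 3 * j ≤ #B →
      ∃ I ⊆ B, #I = j + 1 ∧ ∀ a ∈ I, ∀ b ∈ I, ¬ K a b := by
  classical
  induction j, hj using Nat.le_induction with
  | base =>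
    intro _ B hBA hB
    obtain ⟨a, ha, b, hb, c, hc, hab, hac, hbc⟩ := two_lt_card.1 (by omega : 2 < #B)
    have key : ∀ x ∈ B, ∀ y ∈ B, x ≠ y → ¬ K x y →
        ∃ I ⊆ B, #I = 1 + 1 ∧ ∀ a ∈ I, ∀ b ∈ I, ¬ K a b := by
      intro x hx y hy hxy hK
      refine ⟨{x, y}, ?_, card_pair hxy, ?_⟩
      · intro z hz
        rw [mem_insert, mem_singleton] at hz
        rcases hz with rfl | rfl
        · exact hx
        · exact hy
      · intro z hz w hw
        rw [mem_insert, mem_singleton] at hz hw
        rcases hz with rfl | rfl <;> rcases hw with rfl | rfl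
        · exact hi _
        · exact hK
        · exact fun h => hK (hs _ _ h)
        · exact hi _
    by_cases k1 : K a b
    · by_cases k2 : K b c
      · by_cases k3 : K c a
        · exact absurd (h3 a (hBA ha) b (hBA hb) c (hBA hc) k1 k2 k3) id
        · exact key c hc a ha hac.symm k3
      · exact key b hb c hc hbc k2
    · exact key a ha b hb hab k1
  | succ j hj ih =>
    intro hj6 B hBA hB
    by_cases hlow : ∃ y ∈ B, #(B.filter fun z => K y z) ≤ 2
    · obtain ⟨y, hy, hy2⟩ := hlow
      obtain ⟨I, hI, hIc, hIn⟩ := ih (by omega) ((B.erase y) \ B.filter fun z => K y z)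
        (sdiff_subset.trans ((erase_subset _ _).trans hBA)) (by
          have h6 := le_card_sdiff (B.filter fun z => K y z) (B.erase y)
          rw [card_erase_of_mem hy] at h6
          omega)
      have hyI : y ∉ I := fun h => by
        have := hI h
        rw [mem_sdiff, mem_erase] at this
        exact this.1.1 rfl
      have hno : ∀ z ∈ I, ¬ K y z := by
        intro z hz hK
        have h6 := hI hz
        rw [mem_sdiff] at h6
        exact h6.2 (mem_filter.2 ⟨mem_of_mem_erase h6.1, hK⟩)
      refine ⟨insert y I, ?_, ?_, ?_⟩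
      · refine insert_subset hy (hI.trans ?_)
        exact sdiff_subset.trans (erase_subset _ _)
      · rw [card_insert_of_notMem hyI, hIc]
      · intro a ha b hb
        rcases mem_insert.1 ha with rfl | ha' <;> rcases mem_insert.1 hb with rfl | hb'
        · exact hi _
        · exact hno b hb'
        · exact fun h => hno a ha' (hs _ _ h)
        · exact hIn a ha' b hb'
    · push Not at hlow
      obtain ⟨x, hx⟩ : B.Nonempty := card_pos.1 (by omega)
      -- second neighbours
      obtain ⟨S, hS⟩ : ∃ S : V → Finset V, ∀ y z, z ∈ S y ↔ z ∈ B ∧ K y z ∧ z ≠ x :=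
        ⟨fun y => B.filter fun z => K y z ∧ z ≠ x, fun y z => by rw [mem_filter]⟩
      have hS2 : ∀ y ∈ B, 2 ≤ #(S y) := by
        intro y hy
        have h6 := hlow y hy
        have h7 : (B.filter fun z => K y z).erase x ⊆ S y := by
          intro z hz
          rw [mem_erase, mem_filter] at hz
          exact (hS y z).2 ⟨hz.2.1, hz.2.2, hz.1⟩
        have h8 := card_le_card h7
        have h9 := pred_card_le_card_erase (s := B.filter fun z => K y z) (a := x)
        omega
      obtain ⟨N, hN⟩ : ∃ N : Finset V, ∀ y, y ∈ N ↔ y ∈ B ∧ K x y :=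
        ⟨B.filter fun y => K x y, fun y => by rw [mem_filter]⟩
      have hN3 : 3 ≤ #N := by
        have h6 := hlow x hx
        have h7 : (B.filter fun z => K x z) ⊆ N := by
          intro z hz
          rw [mem_filter] at hz
          exact (hN z).2 hz
        have := card_le_card h7
        omega
      obtain ⟨T, hT⟩ : ∃ T : Finset V, T = insert x (N.biUnion S) := ⟨_, rfl⟩
      have hxS : x ∉ N.biUnion S := by
        intro h
        obtain ⟨y, _, hy⟩ := mem_biUnion.1 h
        exact ((hS y x).1 hy).2.2 rfl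
      have hT7 : 7 ≤ #T := by
        rw [hT, card_insert_of_notMem hxS, card_biUnion]
        · have h6 : ∑ y ∈ N, 2 ≤ ∑ y ∈ N, #(S y) :=
            sum_le_sum fun y hy => hS2 y ((hN y).1 hy).1
          rw [sum_const, smul_eq_mul] at h6
          omega
        · intro y hy y' hy' hne
          rw [Function.onFun, Finset.disjoint_left]
          intro z hz hz'
          obtain ⟨z1, z2, z3⟩ := (hS y z).1 hz
          obtain ⟨-, z2', -⟩ := (hS y' z).1 hz'
          obtain ⟨y1, y2⟩ := (hN y).1 (mem_coe.1 hy)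
          obtain ⟨y1', y2'⟩ := (hN y').1 (mem_coe.1 hy')
          exact h4 x (hBA hx) y (hBA y1) z (hBA z1) y' (hBA y1') z3.symm hne y2 z2
            (hs _ _ z2') (hs _ _ y2')
      have hTB : T ⊆ B := by
        rw [hT]
        refine insert_subset hx ?_
        intro z hz
        obtain ⟨y, _, hy⟩ := mem_biUnion.1 hz
        exact ((hS y z).1 hy).1
      have hTi : ∀ a ∈ T, ∀ b ∈ T, ¬ K a b := by
        have hx2 : ∀ z ∈ N.biUnion S, ¬ K x z := by
          intro z hz hK
          obtain ⟨y, hy, hyz⟩ := mem_biUnion.1 hz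
          obtain ⟨z1, z2, z3⟩ := (hS y z).1 hyz
          obtain ⟨y1, y2⟩ := (hN y).1 hy
          exact h3 x (hBA hx) y (hBA y1) z (hBA z1) y2 z2 (hs _ _ hK)
        intro a ha b hb
        rw [hT, mem_insert] at ha hb
        rcases ha with rfl | ha <;> rcases hb with rfl | hb
        · exact hi _
        · exact hx2 b hb
        · exact fun h => hx2 a ha (hs _ _ h)
        · intro hK
          have hxa := hx2 a ha
          have hxb := hx2 b hb
          obtain ⟨y, hy, hya⟩ := mem_biUnion.1 ha
          obtain ⟨y', hy', hyb⟩ := mem_biUnion.1 hb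
          obtain ⟨a1, a2, a3⟩ := (hS y a).1 hya
          obtain ⟨b1, b2, b3⟩ := (hS y' b).1 hyb
          obtain ⟨y1, y2⟩ := (hN y).1 hy
          obtain ⟨y1', y2'⟩ := (hN y').1 hy'
          by_cases hyy : y = y'
          · subst hyy
            exact h3 y (hBA y1) a (hBA a1) b (hBA b1) a2 hK (hs _ _ b2)
          · refine h5 x (hBA hx) y (hBA y1) a (hBA a1) b (hBA b1) y' (hBA y1') a3.symm b3.symm
              ?_ hyy ?_ y2 a2 hK (hs _ _ b2) (hs _ _ y2')
            · rintro rfl
              exact hxb y2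
            · rintro rfl
              exact hxa y2'
      obtain ⟨I, hI, hIc⟩ := exists_subset_card_eq (show j + 1 + 1 ≤ #T by omega)
      exact ⟨I, hI.trans hTB, hIc, fun a ha b hb => hTi a (hI ha) b (hI hb)⟩

end ind

section conf

variable {V : Type} [Fintype V] [DecidableEq V] {G : SimpleGraph V}

/-- the edges `a, g a` and `b, g b` are joined by an edge -/
def Kf (G : SimpleGraph V) (g : V → V) (a b : V) : Prop :=
  a ≠ b ∧ (G.Adj a b ∨ G.Adj a (g b) ∨ G.Adj (g a) b ∨ G.Adj (g a) (g b))

theorem Kf.symm {g : V → V} {a b : V} (h : Kf G g a b) : Kf G g b a := by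
  obtain ⟨h1, h2⟩ := h
  refine ⟨h1.symm, ?_⟩
  rcases h2 with h2 | h2 | h2 | h2
  · exact Or.inl h2.symm
  · exact Or.inr (Or.inr (Or.inl h2.symm))
  · exact Or.inr (Or.inl h2.symm)
  · exact Or.inr (Or.inr (Or.inr h2.symm))

theorem Kf.ex {g : V → V} {a b : V} (h : Kf G g a b) :
    ∃ p q, (p = a ∨ p = g a) ∧ (q = b ∨ q = g b) ∧ G.Adj p q := by
  obtain ⟨-, h2⟩ := h
  rcases h2 with h2 | h2 | h2 | h2
  · exact ⟨a, b, Or.inl rfl, Or.inl rfl, h2⟩
  · exact ⟨a, g b, Or.inl rfl, Or.inr rfl, h2⟩
  · exact ⟨g a, b, Or.inr rfl, Or.inl rfl, h2⟩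
  · exact ⟨g a, g b, Or.inr rfl, Or.inr rfl, h2⟩

/-- no short circuits of edges of a matching -/
theorem no_short (h12 : ∀ (w : V) (c : G.Walk w w), c.IsCycle → 12 ≤ c.length) {A : Finset V}
    {g : V → V} (hg : ∀ a ∈ A, G.Adj a (g a)) (hgi : Set.InjOn g A)
    (hgA : ∀ a ∈ A, ∀ b ∈ A, a ≠ g b) (k : ℕ) (hk : k ≤ 2) (v : Fin (k + 3) → V)
    (hv : Function.Injective v) (hvA : ∀ i, v i ∈ A) (hK : ∀ i, Kf G g (v i) (v (i + 1))) :
    False := by
  classical
  choose p q hp hq hpq using fun i => (hK i).ex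
  have hpair : ∀ i j z, (z = v i ∨ z = g (v i)) → (z = v j ∨ z = g (v j)) → i = j := by
    intro i j z h1 h2
    apply hv
    rcases h1 with h1 | h1 <;> rcases h2 with h2 | h2
    · exact h1.symm.trans h2
    · exact absurd (h1.symm.trans h2) (hgA _ (hvA i) _ (hvA j))
    · exact absurd (h2.symm.trans h1) (hgA _ (hvA j) _ (hvA i))
    · exact hgi (mem_coe.2 (hvA i)) (mem_coe.2 (hvA j)) (h1.symm.trans h2)
  have hmatch : ∀ i z w, (z = v i ∨ z = g (v i)) → (w = v i ∨ w = g (v i)) → z ≠ w →
      G.Adj z w := by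
    intro i z w h1 h2 hne
    rcases h1 with rfl | rfl <;> rcases h2 with rfl | rfl
    · exact absurd rfl hne
    · exact hg _ (hvA i)
    · exact (hg _ (hvA i)).symm
    · exact absurd rfl hne
  have e1 : ∀ i : Fin (k + 3), i ≠ i + 1 := by
    intro i h
    have h1 : (1 : Fin (k + 3)) = 0 := left_eq_add.1 h
    have := congrArg Fin.val h1
    simp at this
  have e2 : ∀ i : Fin (k + 3), i ≠ i + 1 + 1 := by
    intro i h
    rw [add_assoc] at h
    have h1 : (1 : Fin (k + 3)) + 1 = 0 := left_eq_add.1 h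
    have h2 := congrArg Fin.val h1
    rw [Fin.val_add] at h2
    have h3 : ((1 : Fin (k + 3)) : ℕ) = 1 := Fin.val_one _
    rw [h3, Nat.mod_eq_of_lt (by omega)] at h2
    simp at h2
  obtain ⟨S, hS⟩ : ∃ S : Finset V, S = univ.image p ∪ univ.image q := ⟨_, rfl⟩
  have hpS : ∀ i, p i ∈ S := fun i => by
    rw [hS]; exact mem_union_left _ (mem_image_of_mem _ (mem_univ _))
  have hqS : ∀ i, q i ∈ S := fun i => by
    rw [hS]; exact mem_union_right _ (mem_image_of_mem _ (mem_univ _))
  have hcard : #S ≤ 10 := by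
    rw [hS]
    refine (card_union_le _ _).trans ?_
    have h1 := card_image_le (s := (univ : Finset (Fin (k + 3)))) (f := p)
    have h2 := card_image_le (s := (univ : Finset (Fin (k + 3)))) (f := q)
    rw [card_univ, Fintype.card_fin] at h1 h2
    omega
  have two : ∀ z a b, a ∈ S → b ∈ S → a ≠ b → G.Adj z a → G.Adj z b → 2 ≤ (nb G S z).card := by
    intro z a b ha hb hab h1 h2
    refine Nat.succ_le_of_lt (one_lt_card.2 ⟨a, mem_nb.2 ⟨ha, h1⟩, b, mem_nb.2 ⟨hb, h2⟩, hab⟩)
  have h11 := eleven h12 (S := S) (by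
    intro z hz
    rw [hS, mem_union] at hz
    rcases hz with hz | hz
    · obtain ⟨i, _, rfl⟩ := mem_image.1 hz
      obtain ⟨j, rfl⟩ : ∃ j, i = j + 1 := ⟨i - 1, by rw [sub_add_cancel]⟩
      by_cases h : q j = p (j + 1)
      · refine two _ (q (j + 1)) (p j) (hqS _) (hpS _) ?_ (hpq _) ?_
        · intro h'
          exact e2 j (hpair j (j + 1 + 1) _ (hp j) (by rw [← h']; exact hq (j + 1)))
        · rw [← h]
          exact (hpq j).symm
      · refine two _ (q (j + 1)) (q j) (hqS _) (hqS _) ?_ (hpq _) ?_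
        · intro h'
          exact e1 (j + 1) (hpair (j + 1) (j + 1 + 1) _ (hq j) (by rw [← h']; exact hq (j + 1)))
        · exact hmatch (j + 1) _ _ (hp (j + 1)) (hq j) (Ne.symm h)
    · obtain ⟨i, _, rfl⟩ := mem_image.1 hz
      by_cases h : p (i + 1) = q i
      · refine two _ (p i) (q (i + 1)) (hpS _) (hqS _) ?_ (hpq i).symm ?_
        · intro h'
          exact e2 i (hpair i (i + 1 + 1) _ (hp i) (by rw [h']; exact hq (i + 1)))
        · rw [← h]
          exact hpq (i + 1)
      · refine two _ (p i) (p (i + 1)) (hpS _) (hpS _) ?_ (hpq i).symm ?_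
        · intro h'
          exact e1 i (hpair i (i + 1) _ (hp i) (by rw [h']; exact hp (i + 1)))
        · exact hmatch (i + 1) _ _ (hq i) (hp (i + 1)) (Ne.symm h)) ⟨p 0, hpS 0⟩
  omega

/-- independent edges of a matching -/
theorem indep_edges (h12 : ∀ (w : V) (c : G.Walk w w), c.IsCycle → 12 ≤ c.length)
    {A : Finset V} {g : V → V} (hg : ∀ a ∈ A, G.Adj a (g a)) (hgi : Set.InjOn g A)
    (hgA : ∀ a ∈ A, ∀ b ∈ A, a ≠ g b) (j : ℕ) (hj : 1 ≤ j) (hj6 : j ≤ 6) (hA : 3 * j ≤ #A) :
    ∃ I ⊆ A, #I = j + 1 ∧ ∀ a ∈ I, ∀ b ∈ I, ¬ Kf G g a b := by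
  classical
  refine ind (Kf G g) (fun a b h => h.symm) (fun a h => h.1 rfl) A ?_ ?_ ?_ j hj hj6 A
    (Subset.refl _) hA
  · intro a ha b hb c hc h1 h2 h3
    refine no_short h12 hg hgi hgA 0 (by norm_num) ![a, b, c] ?_ ?_ ?_
    · intro x y hxy
      have k1 := h1.1
      have k2 := h2.1
      have k3 := h3.1
      fin_cases x <;> fin_cases y <;> simp_all
    · intro i
      fin_cases i
      · exact ha
      · exact hb
      · exact hc
    · intro i
      fin_cases i
      · exact h1
      · exact h2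
      · exact h3
  · intro a ha b hb c hc d hd hac hbd h1 h2 h3 h4
    refine no_short h12 hg hgi hgA 1 (by norm_num) ![a, b, c, d] ?_ ?_ ?_
    · intro x y hxy
      have k1 := h1.1
      have k2 := h2.1
      have k3 := h3.1
      have k4 := h4.1
      fin_cases x <;> fin_cases y <;> simp_all
    · intro i
      fin_cases i
      · exact ha
      · exact hb
      · exact hc
      · exact hd
    · intro i
      fin_cases i
      · exact h1
      · exact h2
      · exact h3
      · exact h4
  · intro a ha b hb c hc d hd e he hac had hbd hbe hce h1 h2 h3 h4 h5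
    refine no_short h12 hg hgi hgA 2 (by norm_num) ![a, b, c, d, e] ?_ ?_ ?_
    · intro x y hxy
      have k1 := h1.1
      have k2 := h2.1
      have k3 := h3.1
      have k4 := h4.1
      have k5 := h5.1
      fin_cases x <;> fin_cases y <;> simp_all
    · intro i
      fin_cases i
      · exact ha
      · exact hb
      · exact hc
      · exact hd
      · exact he
    · intro i
      fin_cases i
      · exact h1
      · exact h2
      · exact h3
      · exact h4
      · exact h5

end conf

end Pool.T9h45.SW
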