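import Pool.Agent.T9h45.SW.Conf

/-!
# Nowhere-zero 5-flows and sim-width
-/

set_option autoImplicit false
set_option linter.unusedSectionVars false

namespace Pool.T9h45.SW

open Finset Pool.Agent.TH676.Z Pool.Agent.Y335.FL Pool.Agent.Y358.IN Pool.Agent.R15.TW18
  Pool.Agent.R15.BW18

/-- numerical consequence of the Moore bound for irregular graphs -/
theorem ex14 (V : Type) [Fintype V] [DecidableEq V] (G : SimpleGraph V)
    [DecidableRel G.Adj] (hdeg : ∀ v, 2 ≤ G.degree v) (hg : Girth G.Adj 12)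
    (hn : Fintype.card V ≤ 90) (hm : 2 * Fintype.card V + 11 ≤ 2 * G.edgeFinset.card)
    (hcon : 3 * Fintype.card V ≤ 2 * G.edgeFinset.card + 14) : False := by
  have hV : Nonempty V := by
    have h0 : 0 < G.edgeFinset.card := by omega
    obtain ⟨e, he⟩ := Finset.card_pos.1 h0
    exact ⟨e.out.1⟩
  have h1 := ahl V G hdeg hg
  have hnpos : 0 < Fintype.card V := Fintype.card_pos
  obtain ⟨n, hn'⟩ : ∃ n, n = Fintype.card V := ⟨_, rfl⟩
  obtain ⟨m, hm'⟩ : ∃ m, m = G.edgeFinset.card := ⟨_, rfl⟩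
  rw [← hn'] at h1 hn hm hcon hnpos
  rw [← hm'] at h1 hm hcon
  have hn0 : (0 : ℝ) < n := by exact_mod_cast hnpos
  have key : ∀ y : ℝ, 0 ≤ y → y * n ≤ 2 * m - n → 2 * ∑ i ∈ range 6, y ^ i ≤ n := by
    intro y hy hyn
    refine le_trans ?_ h1
    refine mul_le_mul_of_nonneg_left (Finset.sum_le_sum fun i _ => ?_) (by norm_num)
    refine pow_le_pow_left₀ hy ?_ i
    rw [le_sub_iff_add_le, le_div_iff₀ hn0]
    linarith
  have hm1 : (n : ℝ) + 6 ≤ m := by
    have : n + 6 ≤ m := by omega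
    exact_mod_cast this
  have hm2 : 3 * (n : ℝ) ≤ 2 * m + 14 := by exact_mod_cast hcon
  rcases le_or_gt n 26 with h26 | h26
  · have h2 := key (1 + 12 / n) (by positivity) (by
      rw [add_mul, div_mul_cancel₀ _ hn0.ne']
      linarith)
    clear key h1 hn' hm' hm1 hm2 hcon hm hn hn0
    interval_cases n <;> norm_num [Finset.sum_range_succ] at h2
  · have h27 : (27 : ℝ) ≤ n := by exact_mod_cast h26
    have h2 := key (2 - 14 / n) (by
      rw [sub_nonneg, div_le_iff₀ hn0]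
      linarith) (by
      rw [sub_mul, div_mul_cancel₀ _ hn0.ne']
      linarith)
    clear key h1 hn' hm' hm1 hm2 hcon hm hn0 h27
    interval_cases n <;> norm_num [Finset.sum_range_succ] at h2

open Classical in
/-- the outer neighbours -/
noncomputable def outer {V : Type} [Fintype V] [DecidableEq V] (G : SimpleGraph V)
    (M : Finset V) : Finset V := univ.filter (fun v => v ∉ M ∧ ∃ x ∈ M, G.Adj x v)

section

variable {V : Type} [Fintype V] [DecidableEq V] {G : SimpleGraph V}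

theorem deg3 [DecidableRel G.Adj] (h3 : Three G.Adj) {v : V} (hv : ∃ y, G.Adj v y) :
    3 ≤ G.degree v := by
  obtain ⟨y, hy⟩ := hv
  obtain ⟨a, b, c, ha, hb', hc, hab, hac, hbc⟩ := h3 v y hy
  rw [← SimpleGraph.card_neighborFinset_eq_degree]
  have h4 : ({a, b, c} : Finset V) ⊆ G.neighborFinset v := by
    intro z hz
    simp only [mem_insert, mem_singleton] at hz
    rw [SimpleGraph.mem_neighborFinset]
    rcases hz with rfl | rfl | rfl
    · exact ha
    · exact hb'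
    · exact hc
  calc 3 = ({a, b, c} : Finset V).card := by
        rw [card_insert_of_notMem (by simp [hab, hac]), card_pair hbc]
    _ ≤ _ := card_le_card h4

theorem outer15 (hg : Girth G.Adj 12) (h3 : Three G.Adj) (M : Finset V)
    (hM : ∀ v ∈ M, ∃ y, G.Adj v y) (h1 : 25 ≤ #M) (h2 : #M ≤ 76) : 15 ≤ #(outer G M) := by
  classical
  have h := isoGen 14 V G hg M (fun v hv => deg3 h3 (hM v hv)) (by omega)
    (fun V' _ _ G' _ a1 a2 a3 a4 a5 => ex14 V' G' a1 a2 (by omega) (by omega) (by omega))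
  unfold outer
  convert h

theorem outer19 (hg : Girth G.Adj 12) (h3 : Three G.Adj) (M : Finset V)
    (hM : ∀ v ∈ M, ∃ y, G.Adj v y) (h1 : 25 ≤ #M) (h2 : #M ≤ 57) : 19 ≤ #(outer G M) := by
  classical
  have h := isoT 18 V G hg M (fun v hv => deg3 h3 (hM v hv)) h1 le_rfl (by omega)
  unfold outer
  convert h

/-- a large matching across a cut -/
theorem cut_matching (s lo hi : ℕ) (hs : 1 ≤ s)
    (hiso : ∀ M : Finset V, (∀ v ∈ M, ∃ y, G.Adj v y) → lo ≤ #M → #M ≤ hi → s ≤ #(outer G M))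
    (Y : Set V) (U : Finset V) (hU : ∀ v, v ∈ U ↔ v ∈ Y ∧ ∃ y, G.Adj v y)
    (h1 : lo + (s - 1) ≤ #U) (h2 : #U ≤ hi) :
    ∃ A ⊆ U, s ≤ #A ∧ ∃ g : V → V, (∀ a ∈ A, G.Adj a (g a) ∧ g a ∉ Y) ∧ Set.InjOn g A := by
  classical
  obtain ⟨A, hA, hAs, g, hg, hgi⟩ := konig G.Adj U (univ.filter fun v => v ∉ Y) s (by
    intro X hX
    by_contra hcon
    push Not at hcon
    have h3 : #(U \ X) ≤ #U := card_le_card sdiff_subset
    have h4 := le_card_sdiff X U
    have h5 := hiso (U \ X) (fun v hv => ((hU v).1 (mem_sdiff.1 hv).1).2) (by omega) (by omega)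
    have h6 : outer G (U \ X) ⊆ X := by
      intro v hv
      unfold outer at hv
      rw [mem_filter] at hv
      obtain ⟨-, hv1, x, hx, hxv⟩ := hv
      obtain ⟨hxU, hxX⟩ := mem_sdiff.1 hx
      by_cases hvY : v ∈ Y
      · have hvU : v ∈ U := (hU v).2 ⟨hvY, x, hxv.symm⟩
        by_contra hvX
        exact hv1 (mem_sdiff.2 ⟨hvU, hvX⟩)
      · exact (hX x hxU v (mem_filter.2 ⟨mem_univ _, hvY⟩) hxv).resolve_left hxX
    have h7 := card_le_card h6
    omega)
  exact ⟨A, hA, hAs, g, fun a ha => ⟨(hg a ha).2, (mem_filter.1 (hg a ha).1).2⟩, hgi⟩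

/-- an induced matching across a cut -/
theorem cut_induced (h12 : ∀ (w : V) (c : G.Walk w w), c.IsCycle → 12 ≤ c.length)
    {A : Finset V} {Y : Set V} {g : V → V} (hA : ∀ a ∈ A, a ∈ Y)
    (hg : ∀ a ∈ A, G.Adj a (g a) ∧ g a ∉ Y) (hgi : Set.InjOn g A) (j : ℕ) (hj : 1 ≤ j)
    (hj6 : j ≤ 6) (hAc : 3 * j ≤ #A) : Mt G.Adj (j + 1) Y := by
  obtain ⟨I, hI, hIc, hIn⟩ := indep_edges h12 (A := A) (g := g) (fun a ha => (hg a ha).1) hgi
    (fun a ha b hb h => (hg b hb).2 (by rw [← h]; exact hA a ha)) j hj hj6 hAc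
  let φ : Fin (j + 1) ≃ I := (I.equivFinOfCardEq hIc).symm
  refine ⟨fun i => φ i, fun i => g (φ i), ?_, ?_⟩
  · intro i
    have h1 := hI (φ i).2
    exact ⟨hA _ h1, (hg _ h1).2, (hg _ h1).1⟩
  · intro i k hik
    have h1 := hIn _ (φ i).2 _ (φ k).2
    have h2 : (φ i : V) ≠ φ k := fun h => hik (φ.injective (Subtype.ext h))
    exact ⟨fun h => h1 ⟨h2, Or.inl h⟩, fun h => h1 ⟨h2, Or.inr (Or.inl h)⟩,
      fun h => h1 ⟨h2, Or.inr (Or.inr (Or.inr h))⟩⟩

end

/-- Rooted binary trees with leaves labelled by vertices. -/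
inductive LeafTree (V : Type) : Type
  | leaf (v : V) : LeafTree V
  | node (l r : LeafTree V) : LeafTree V

/-- The labels of the leaves. -/
def LeafTree.labels {V : Type} [DecidableEq V] : LeafTree V → Finset V
  | .leaf v => {v}
  | .node l r => l.labels ∪ r.labels

/-- the label sets of the subtrees -/
def LeafTree.sets {V : Type} [DecidableEq V] : LeafTree V → Set (Set V)
  | .leaf v => {{v}}
  | .node l r => {((l.labels ∪ r.labels : Finset V) : Set V)} ∪ (l.sets ∪ r.sets)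

theorem LeafTree.bal {V : Type} [DecidableEq V] (S : Finset V) (a : ℕ) (ha : 2 ≤ a)
    (T : LeafTree V) : a ≤ #(T.labels ∩ S) →
    ∃ Y : Finset V, ((Y : Set V) ∈ T.sets) ∧ a ≤ #(Y ∩ S) ∧ #(Y ∩ S) ≤ 2 * a - 2 := by
  induction T with
  | leaf v =>
    intro h
    have h1 : #(({v} : Finset V) ∩ S) ≤ 1 :=
      (card_le_card inter_subset_left).trans (le_of_eq (card_singleton v))
    have h2 : (LeafTree.leaf v).labels = ({v} : Finset V) := rfl
    rw [h2] at h
    omega
  | node l r ihl ihr =>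
    intro h
    by_cases hl : a ≤ #(l.labels ∩ S)
    · obtain ⟨Y, h1, h2⟩ := ihl hl
      exact ⟨Y, Or.inr (Or.inl h1), h2⟩
    by_cases hr : a ≤ #(r.labels ∩ S)
    · obtain ⟨Y, h1, h2⟩ := ihr hr
      exact ⟨Y, Or.inr (Or.inr h1), h2⟩
    refine ⟨l.labels ∪ r.labels, Or.inl rfl, h, ?_⟩
    rw [union_inter_distrib_right]
    have := card_union_le (l.labels ∩ S) (r.labels ∩ S)
    omega

section flow

variable {V E : Type} [Fintype V] [DecidableEq V] [Fintype E] [DecidableEq E]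

/-- **Sim-width at most five.** -/
theorem flow_tree (hc : St_contract) (T : LeafTree V) (hT : T.labels = univ) {src dst : E → V}
    (hcl : ClM T.sets 6 src dst) (hbr : Br src dst ∅ ∅) : FlowOn src dst ∅ ∅ := by
  classical
  by_contra hn
  obtain ⟨s, d, hs, hM⟩ := exists_minC (ccM T.sets 6) src dst hcl hbr hn
  have h3 := threeC hc hM
  have hgi := girthC hc hM
  by_cases hl : ∀ e, s e = d e
  · exact hM.nf (flow_of_loops hl)
  push Not at hl
  obtain ⟨e, he⟩ := hl
  let G : SimpleGraph V :=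
    { Adj := Adj s d
      symm := ⟨fun a b h => GiAux.adj_symm h⟩
      loopless := ⟨fun a h => h.1 rfl⟩ }
  have h12 : ∀ (w : V) (c : G.Walk w w), c.IsCycle → 12 ≤ c.length :=
    fun w c hc => Ord.cycle_len hgi G (fun a b => Iff.rfl) c hc
  have hxy : G.Adj (s e) (d e) := ⟨he, e, Or.inl ⟨rfl, rfl⟩⟩
  have h126 := moore V (Adj s d) (fun a b h => GiAux.adj_symm h) (fun a h => h.1 rfl) hgi h3
    ⟨s e, d e, hxy⟩
  obtain ⟨S, hS⟩ : ∃ S : Finset V, S = univ.filter (fun v => ∃ y, Adj s d v y) := ⟨_, rfl⟩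
  rw [← hS] at h126
  obtain ⟨Y, hY, hY1, hY2⟩ := T.bal S 39 (by norm_num) (by rw [hT, univ_inter]; omega)
  obtain ⟨A, hAU, hA, g, hg, hgi'⟩ := cut_matching (G := G) 15 25 76 (by norm_num)
    (fun M h1 h2 h3' => outer15 hgi h3 M h1 h2 h3') (Y : Set V) (Y ∩ S)
    (fun v => by rw [mem_inter, hS, mem_filter, mem_coe]; exact ⟨fun h => ⟨h.1, h.2.2⟩,
      fun h => ⟨h.1, mem_univ _, h.2⟩⟩) (by omega) (by omega)
  exact hs _ hY (cut_induced h12 (fun a ha => mem_coe.2 (mem_inter.1 (hAU ha)).1) hg hgi' 5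
    (by norm_num) (by norm_num) (by omega))

/-- **Linear sim-width at most six.** -/
theorem flow_linear (hc : St_contract) (rk : V → ℕ) (hrk : Function.Injective rk)
    {src dst : E → V} (hcl : ClM {Y | ∃ t, Y = {v | rk v < t}} 7 src dst)
    (hbr : Br src dst ∅ ∅) : FlowOn src dst ∅ ∅ := by
  classical
  by_contra hn
  obtain ⟨s, d, hs, hM⟩ := exists_minC (ccM _ 7) src dst hcl hbr hn
  have h3 := threeC hc hM
  have hgi := girthC hc hM
  by_cases hl : ∀ e, s e = d e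
  · exact hM.nf (flow_of_loops hl)
  push Not at hl
  obtain ⟨e, he⟩ := hl
  let G : SimpleGraph V :=
    { Adj := Adj s d
      symm := ⟨fun a b h => GiAux.adj_symm h⟩
      loopless := ⟨fun a h => h.1 rfl⟩ }
  have h12 : ∀ (w : V) (c : G.Walk w w), c.IsCycle → 12 ≤ c.length :=
    fun w c hc => Ord.cycle_len hgi G (fun a b => Iff.rfl) c hc
  have hxy : G.Adj (s e) (d e) := ⟨he, e, Or.inl ⟨rfl, rfl⟩⟩
  have h126 := moore V (Adj s d) (fun a b h => GiAux.adj_symm h) (fun a h => h.1 rfl) hgi h3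
    ⟨s e, d e, hxy⟩
  obtain ⟨S, hS⟩ : ∃ S : Finset V, S = univ.filter (fun v => ∃ y, Adj s d v y) := ⟨_, rfl⟩
  rw [← hS] at h126
  obtain ⟨U, hUS, hU50, hUmax⟩ := Pool.Agent.R15.PW20.seg S rk 50 (by omega)
  obtain ⟨z, hz, hmin⟩ := exists_min_image U rk (card_pos.1 (by omega))
  obtain ⟨A, hAU, hA, g, hg, hgi'⟩ := cut_matching (G := G) 18 25 57 (by norm_num)
    (fun M h1 h2 h3' => (by norm_num : (18 : ℕ) ≤ 19).trans (outer19 hgi h3 M h1 h2 h3'))
    ({v | rk v < rk z}ᶜ : Set V) U (by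
      intro v
      rw [Set.mem_compl_iff, Set.mem_setOf_eq, not_lt]
      constructor
      · intro hv
        refine ⟨hmin v hv, ?_⟩
        have h1 := hUS hv
        rw [hS, mem_filter] at h1
        exact h1.2
      · rintro ⟨h1, h2⟩
        by_contra hv
        have hvS : v ∈ S := by
          rw [hS, mem_filter]
          exact ⟨mem_univ _, h2⟩
        have h4 := hUmax v (mem_sdiff.2 ⟨hvS, hv⟩) z hz
        exact hv (by rw [hrk (le_antisymm h4 h1)]; exact hz)) (by omega) (by omega)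
  have h5 := cut_induced h12 (Y := ({v | rk v < rk z}ᶜ : Set V)) (A := A) (g := g)
    (fun a ha => by
      rw [Set.mem_compl_iff, Set.mem_setOf_eq, not_lt]
      exact hmin a (hAU ha)) hg hgi' 6 (by norm_num) (by norm_num) (by omega)
  have h6 := h5.compl (fun a b h => h.symm)
  rw [compl_compl] at h6
  exact hs _ ⟨rk z, rfl⟩ h6

end flow

end Pool.T9h45.SW
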